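import Pool.Agent.H227R3.Urn.Defs

open MeasureTheory
open scoped ENNReal BigOperators

set_option linter.unusedSectionVars false

namespace Pool.Agent.H227R3.Urn

/-- weight of the draw pattern `c` when the probability of black is `p` -/
noncomputable def wt {d : ℕ} (p : ℝ) (c : Fin d → Bool) : ℝ := ∏ i, if c i then p else 1 - p

/-- number of black draws -/
def nb {d : ℕ} (c : Fin d → Bool) : ℕ := ∑ i, if c i then 1 else 0
/-- number of red draws -/
def nr {d : ℕ} (c : Fin d → Bool) : ℕ := ∑ i, if c i then 0 else 1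

lemma nb_add_nr {d : ℕ} (c : Fin d → Bool) : nb c + nr c = d := by
  unfold nb nr
  rw [← Finset.sum_add_distrib]
  have : ∀ i ∈ (Finset.univ : Finset (Fin d)), ((if c i then 1 else 0) + (if c i then 0 else 1) : ℕ) = 1 := by
    intro i _
    cases c i <;> simp
  rw [Finset.sum_congr rfl this]
  simp

lemma wt_nonneg {d : ℕ} {p : ℝ} (h0 : 0 ≤ p) (h1 : p ≤ 1) (c : Fin d → Bool) : 0 ≤ wt p c := by
  unfold wt
  apply Finset.prod_nonneg
  intro i _
  split_ifs <;> linarith

lemma sum_wt {d : ℕ} (p : ℝ) : ∑ c : Fin d → Bool, wt p c = 1 := by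
  unfold wt
  rw [← Fintype.prod_sum (f := fun (_ : Fin d) (b : Bool) => if b then p else 1 - p)]
  simp

open Classical in
/-- probability, for the chain of totals, of leaving `G` within `n` steps -/
noncomputable def u (d : ℕ) (W : ℕ → ℝ) (G : ℕ → ℕ → Prop) : ℕ → ℕ → ℕ → ℝ
  | 0, b, r => if G b r then 0 else 1
  | n + 1, b, r => if G b r then
      ∑ c : Fin d → Bool, wt (pBlack W b r) c * u d W G n (b + nb c) (r + nr c) else 1

lemma pBlack_nonneg {W : ℕ → ℝ} (hW : ∀ n, 0 ≤ W n) (b r : ℕ) : 0 ≤ pBlack W b r :=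
  div_nonneg (hW b) (add_nonneg (hW b) (hW r))

lemma pBlack_le_one {W : ℕ → ℝ} (hW : ∀ n, 0 ≤ W n) (b r : ℕ) : pBlack W b r ≤ 1 := by
  unfold pBlack
  apply div_le_one_of_le₀
  · linarith [hW r]
  · linarith [hW b, hW r]

lemma u_nonneg {d : ℕ} {W : ℕ → ℝ} (hW : ∀ n, 0 ≤ W n) (G : ℕ → ℕ → Prop) (n b r : ℕ) :
    0 ≤ u d W G n b r := by
  induction n generalizing b r with
  | zero => unfold u; split_ifs <;> norm_num
  | succ n ih =>
    unfold u
    split_ifs
    · apply Finset.sum_nonneg
      intro c _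
      exact mul_nonneg (wt_nonneg (pBlack_nonneg hW b r) (pBlack_le_one hW b r) c) (ih _ _)
    · norm_num

lemma u_le_one {d : ℕ} {W : ℕ → ℝ} (hW : ∀ n, 0 ≤ W n) (G : ℕ → ℕ → Prop) (n b r : ℕ) :
    u d W G n b r ≤ 1 := by
  induction n generalizing b r with
  | zero => unfold u; split_ifs <;> norm_num
  | succ n ih =>
    unfold u
    split_ifs
    · calc ∑ c : Fin d → Bool, wt (pBlack W b r) c * u d W G n (b + nb c) (r + nr c)
          ≤ ∑ c : Fin d → Bool, wt (pBlack W b r) c * 1 := by
            apply Finset.sum_le_sum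
            intro c _
            exact mul_le_mul_of_nonneg_left (ih _ _)
              (wt_nonneg (pBlack_nonneg hW b r) (pBlack_le_one hW b r) c)
        _ = 1 := by simp [sum_wt]
    · norm_num

/-- the history event -/
def Hist {d : ℕ} {Ω : Type*} (B R : ℕ → Ω → Fin d → ℕ) (m : ℕ) (b r : ℕ → Fin d → ℕ) : Set Ω :=
  {ω | ∀ j ≤ m, B j ω = b j ∧ R j ω = r j}

/-- the event that step `j` has pattern `c` -/
def Stp {d : ℕ} {Ω : Type*} (B R : ℕ → Ω → Fin d → ℕ) (j : ℕ) (c : Fin d → Bool) : Set Ω :=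
  {ω | ∀ i, B (j + 1) ω i = B j ω i + (if c i then 1 else 0) ∧
          R (j + 1) ω i = R j ω i + (if c i then 0 else 1)}

/-- bad event between time `m` and time `m + n` -/
def Bad {d : ℕ} {Ω : Type*} (G : ℕ → ℕ → Prop) (B R : ℕ → Ω → Fin d → ℕ) (m n : ℕ) : Set Ω :=
  {ω | (∃ j, m ≤ j ∧ j ≤ m + n ∧ ¬ G (∑ i, B j ω i) (∑ i, R j ω i)) ∨
    (∃ j, m ≤ j ∧ j < m + n ∧ ¬ ∃ c, ω ∈ Stp B R j c)}

/-- extension of a history -/
def ext {d : ℕ} (m : ℕ) (b : ℕ → Fin d → ℕ) (c : Fin d → ℕ) : ℕ → Fin d → ℕ :=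
  Function.update b (m + 1) (fun i => b m i + c i)

lemma ext_le {d : ℕ} {m j : ℕ} (hj : j ≤ m) (b : ℕ → Fin d → ℕ) (c : Fin d → ℕ) :
    ext m b c j = b j := by
  unfold ext
  rw [Function.update_of_ne]
  omega

lemma ext_succ {d : ℕ} {m : ℕ} (b : ℕ → Fin d → ℕ) (c : Fin d → ℕ) :
    ext m b c (m + 1) = fun i => b m i + c i := by
  unfold ext
  simp

lemma hist_succ {d : ℕ} {Ω : Type*} (B R : ℕ → Ω → Fin d → ℕ) (m : ℕ) (b r : ℕ → Fin d → ℕ)
    (c : Fin d → Bool) :
    Hist B R (m + 1) (ext m b (fun i => if c i then 1 else 0))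
      (ext m r (fun i => if c i then 0 else 1)) = Hist B R m b r ∩ Stp B R m c := by
  ext ω
  simp only [Hist, Stp, Set.mem_inter_iff, Set.mem_ofPred_eq]
  constructor
  · intro h
    have h1 : ∀ j ≤ m, B j ω = b j ∧ R j ω = r j := by
      intro j hj
      have := h j (by omega)
      rw [ext_le hj, ext_le hj] at this
      exact this
    refine ⟨h1, ?_⟩
    have h2 := h (m + 1) le_rfl
    rw [ext_succ, ext_succ] at h2
    intro i
    rw [h2.1, h2.2, (h1 m le_rfl).1, (h1 m le_rfl).2]
    exact ⟨rfl, rfl⟩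
  · rintro ⟨h1, h2⟩ j hj
    rcases Nat.lt_or_ge m j with hlt | hge
    · have : j = m + 1 := by omega
      subst this
      rw [ext_succ, ext_succ]
      constructor
      · funext i
        rw [(h2 i).1, (h1 m le_rfl).1]
      · funext i
        rw [(h2 i).2, (h1 m le_rfl).2]
    · rw [ext_le hge, ext_le hge]
      exact h1 j hge

section
variable {d : ℕ} {W : ℕ → ℝ} {B₀ R₀ : Fin d → ℕ} {Ω : Type*} [MeasurableSpace Ω]
  {μ : Measure Ω} {B R : ℕ → Ω → Fin d → ℕ}

lemma measurableSet_hist (h : IsUrnProcess W B₀ R₀ μ B R) (m : ℕ) (b r : ℕ → Fin d → ℕ) :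
    MeasurableSet (Hist B R m b r) := by
  have : Hist B R m b r = ⋂ j ∈ Set.Iic m, (B j ⁻¹' {b j}) ∩ (R j ⁻¹' {r j}) := by
    ext ω
    simp [Hist]
  rw [this]
  apply MeasurableSet.biInter (Set.to_countable _)
  intro j _
  exact ((h.measurable_B j) (measurableSet_singleton _)).inter
    ((h.measurable_R j) (measurableSet_singleton _))

lemma step_hist (h : IsUrnProcess W B₀ R₀ μ B R) (m : ℕ) (b r : ℕ → Fin d → ℕ)
    (hW : ∀ n, 0 ≤ W n) (c : Fin d → Bool) :
    μ (Hist B R m b r ∩ Stp B R m c) =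
      μ (Hist B R m b r) * ENNReal.ofReal (wt (pBlack W (∑ j, b m j) (∑ j, r m j)) c) := by
  have h1 := h.step m b r c
  have e1 : {ω | (∀ j ≤ m, B j ω = b j ∧ R j ω = r j) ∧
        ∀ i, B (m + 1) ω i = b m i + (if c i then 1 else 0) ∧
          R (m + 1) ω i = r m i + (if c i then 0 else 1)} = Hist B R m b r ∩ Stp B R m c := by
    ext ω
    simp only [Hist, Stp, Set.mem_inter_iff, Set.mem_ofPred_eq]
    constructor
    · rintro ⟨h1, h2⟩
      refine ⟨h1, ?_⟩
      rw [(h1 m le_rfl).1, (h1 m le_rfl).2]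
      exact h2
    · rintro ⟨h1, h2⟩
      refine ⟨h1, ?_⟩
      rw [(h1 m le_rfl).1, (h1 m le_rfl).2] at h2
      exact h2
  rw [e1] at h1
  rw [h1]
  congr 1
  unfold wt
  rw [ENNReal.ofReal_prod_of_nonneg]
  intro i _
  have := pBlack_nonneg hW (∑ j, b m j) (∑ j, r m j)
  have := pBlack_le_one hW (∑ j, b m j) (∑ j, r m j)
  split_ifs <;> linarith

lemma stp_disjoint (B R : ℕ → Ω → Fin d → ℕ) (m : ℕ) : Pairwise (Function.onFun Disjoint (Stp B R m)) := by
  intro c c' hne
  rw [Function.onFun, Set.disjoint_left]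
  intro ω h h'
  apply hne
  funext i
  have h1 := (h i).1
  have h2 := (h' i).1
  cases hc : c i <;> cases hc' : c' i <;> simp_all

lemma null_step [IsProbabilityMeasure μ] (h : IsUrnProcess W B₀ R₀ μ B R) (m : ℕ) (b r : ℕ → Fin d → ℕ)
    (hW : ∀ n, 0 ≤ W n) : μ (Hist B R m b r \ ⋃ c, Stp B R m c) = 0 := by
  have hm := measurableSet_hist h m b r
  have hmc : ∀ c, MeasurableSet (Hist B R m b r ∩ Stp B R m c) := by
    intro c
    rw [← hist_succ]
    exact measurableSet_hist h _ _ _
  have e1 : μ (⋃ c, (Hist B R m b r ∩ Stp B R m c)) = μ (Hist B R m b r) := by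
    rw [measure_iUnion]
    · rw [tsum_fintype]
      simp_rw [step_hist h m b r hW]
      rw [← Finset.mul_sum, ← ENNReal.ofReal_sum_of_nonneg]
      · rw [sum_wt]; simp
      · intro c _
        exact wt_nonneg (pBlack_nonneg hW _ _) (pBlack_le_one hW _ _) c
    · intro c c' hne
      exact (stp_disjoint B R m hne).mono Set.inter_subset_right Set.inter_subset_right
    · exact hmc
  have e2 : Hist B R m b r \ ⋃ c, Stp B R m c =
      Hist B R m b r \ ⋃ c, (Hist B R m b r ∩ Stp B R m c) := by
    rw [← Set.inter_iUnion]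
    simp
  rw [e2, measure_sdiff _ _ (measure_ne_top _ _), e1, tsub_self]
  · exact Set.iUnion_subset fun c => Set.inter_subset_left
  · exact (MeasurableSet.iUnion hmc).nullMeasurableSet

lemma bound_hist [IsProbabilityMeasure μ] (h : IsUrnProcess W B₀ R₀ μ B R)
    (hW : ∀ n, 0 ≤ W n) (G : ℕ → ℕ → Prop) (n m : ℕ) (b r : ℕ → Fin d → ℕ) :
    μ (Hist B R m b r ∩ Bad G B R m n) ≤
      μ (Hist B R m b r) * ENNReal.ofReal (u d W G n (∑ i, b m i) (∑ i, r m i)) := by
  classical
  induction n generalizing m b r with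
  | zero =>
    by_cases hG : G (∑ i, b m i) (∑ i, r m i)
    · have : Hist B R m b r ∩ Bad G B R m 0 = ∅ := by
        ext ω
        simp only [Set.mem_inter_iff, Set.mem_empty_iff_false, iff_false, not_and]
        intro h1 h2
        rcases h2 with ⟨j, hj1, hj2, hj3⟩ | ⟨j, hj1, hj2, _⟩
        · have : j = m := by omega
          subst this
          apply hj3
          rw [(h1 j le_rfl).1, (h1 j le_rfl).2]
          exact hG
        · omega
      rw [this]
      simp
    · have : u d W G 0 (∑ i, b m i) (∑ i, r m i) = 1 := by unfold u; simp [hG]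
      rw [this]
      simp only [ENNReal.ofReal_one, mul_one]
      exact measure_mono Set.inter_subset_left
  | succ n ih =>
    by_cases hG : G (∑ i, b m i) (∑ i, r m i)
    · have hu : u d W G (n + 1) (∑ i, b m i) (∑ i, r m i) =
          ∑ c : Fin d → Bool, wt (pBlack W (∑ i, b m i) (∑ i, r m i)) c *
            u d W G n (∑ i, b m i + nb c) (∑ i, r m i + nr c) := by
        conv_lhs => unfold u
        simp [hG]
      have hsub : Hist B R m b r ∩ Bad G B R m (n + 1) ⊆
          (⋃ c : Fin d → Bool, (Hist B R (m + 1) (ext m b (fun i => if c i then 1 else 0))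
            (ext m r (fun i => if c i then 0 else 1)) ∩ Bad G B R (m + 1) n)) ∪
          (Hist B R m b r \ ⋃ c, Stp B R m c) := by
        rintro ω ⟨h1, h2⟩
        by_cases hs : ∃ c, ω ∈ Stp B R m c
        · left
          obtain ⟨c, hc⟩ := hs
          rw [Set.mem_iUnion]
          refine ⟨c, ?_, ?_⟩
          · rw [hist_succ]
            exact ⟨h1, hc⟩
          · rcases h2 with ⟨j, hj1, hj2, hj3⟩ | ⟨j, hj1, hj2, hj3⟩
            · left
              refine ⟨j, ?_, by omega, hj3⟩
              rcases Nat.lt_or_ge m j with hlt | hge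
              · omega
              · exfalso
                have : j = m := by omega
                subst this
                apply hj3
                rw [(h1 j le_rfl).1, (h1 j le_rfl).2]
                exact hG
            · right
              refine ⟨j, ?_, by omega, hj3⟩
              rcases Nat.lt_or_ge m j with hlt | hge
              · omega
              · exfalso
                have : j = m := by omega
                subst this
                exact hj3 ⟨c, hc⟩
        · right
          refine ⟨h1, ?_⟩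
          simpa using hs
      refine (measure_mono hsub).trans ?_
      refine (measure_union_le _ _).trans ?_
      rw [null_step h m b r hW, add_zero]
      refine (measure_iUnion_fintype_le _ _).trans ?_
      rw [hu, ENNReal.ofReal_sum_of_nonneg, Finset.mul_sum]
      · apply Finset.sum_le_sum
        intro c _
        refine (ih (m + 1) _ _).trans ?_
        rw [hist_succ, step_hist h m b r hW, mul_assoc, ← ENNReal.ofReal_mul]
        · rw [ext_succ, ext_succ, Finset.sum_add_distrib, Finset.sum_add_distrib]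
          rfl
        · exact wt_nonneg (pBlack_nonneg hW _ _) (pBlack_le_one hW _ _) c
      · intro c _
        exact mul_nonneg (wt_nonneg (pBlack_nonneg hW _ _) (pBlack_le_one hW _ _) c)
          (u_nonneg hW G n _ _)
    · have : u d W G (n + 1) (∑ i, b m i) (∑ i, r m i) = 1 := by unfold u; simp [hG]
      rw [this]
      simp only [ENNReal.ofReal_one, mul_one]
      exact measure_mono Set.inter_subset_left

/-- If the failure probabilities from the initial totals are at most `v`, then the bad event has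
probability at most `v`. -/
lemma bound_bad [IsProbabilityMeasure μ] (h : IsUrnProcess W B₀ R₀ μ B R)
    (hW : ∀ n, 0 ≤ W n) (G : ℕ → ℕ → Prop) (v : ℝ)
    (hv : ∀ n, u d W G n (∑ i, B₀ i) (∑ i, R₀ i) ≤ v) :
    μ (⋃ n, Bad G B R 0 n) ≤ ENNReal.ofReal v := by
  have hmono : Monotone (fun n => Bad G B R 0 n) := by
    intro n n' hnn ω hω
    rcases hω with ⟨j, hj1, hj2, hj3⟩ | ⟨j, hj1, hj2, hj3⟩
    · left; exact ⟨j, hj1, by omega, hj3⟩
    · right; exact ⟨j, hj1, by omega, hj3⟩
  rw [hmono.measure_iUnion]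
  apply iSup_le
  intro n
  have h0 : μ (Hist B R 0 (fun _ => B₀) (fun _ => R₀))ᶜ = 0 := by
    have := h.init
    rw [ae_iff] at this
    convert this using 2
    ext ω
    simp [Hist]
  calc μ (Bad G B R 0 n) ≤ μ ((Hist B R 0 (fun _ => B₀) (fun _ => R₀) ∩ Bad G B R 0 n) ∪
        (Hist B R 0 (fun _ => B₀) (fun _ => R₀))ᶜ) := by
        apply measure_mono
        intro ω hω
        by_cases hh : ω ∈ Hist B R 0 (fun _ => B₀) (fun _ => R₀)
        · left; exact ⟨hh, hω⟩
        · right; exact hh
    _ ≤ μ (Hist B R 0 (fun _ => B₀) (fun _ => R₀) ∩ Bad G B R 0 n) +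
        μ (Hist B R 0 (fun _ => B₀) (fun _ => R₀))ᶜ := measure_union_le _ _
    _ = μ (Hist B R 0 (fun _ => B₀) (fun _ => R₀) ∩ Bad G B R 0 n) := by rw [h0, add_zero]
    _ ≤ μ (Hist B R 0 (fun _ => B₀) (fun _ => R₀)) *
        ENNReal.ofReal (u d W G n (∑ i, B₀ i) (∑ i, R₀ i)) := bound_hist h hW G n 0 _ _
    _ ≤ 1 * ENNReal.ofReal v := by
        gcongr
        · exact prob_le_one
        · exact hv n
    _ = ENNReal.ofReal v := one_mul _

/-- Outside the bad event there is no monopoly. -/
lemma monopoly_subset (G : ℕ → ℕ → Prop) (K : ℕ) (hd : 0 < d)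
    (hG : ∀ b r, G b r → b ≤ K * r + K ∧ r ≤ K * b + K) (B R : ℕ → Ω → Fin d → ℕ) :
    Monopoly B R ⊆ ⋃ n, Bad G B R 0 n := by
  intro ω hω
  by_contra hcon
  rw [Set.mem_iUnion] at hcon
  push Not at hcon
  have hGj : ∀ j, G (∑ i, B j ω i) (∑ i, R j ω i) := by
    intro j
    by_contra hj
    exact hcon j (Or.inl ⟨j, by omega, by omega, hj⟩)
  have hSt : ∀ j, ∃ c, ω ∈ Stp B R j c := by
    intro j
    by_contra hj
    exact hcon (j + 1) (Or.inr ⟨j, by omega, by omega, hj⟩)
  have htot : ∀ j, (∑ i, B (j + 1) ω i) + (∑ i, R (j + 1) ω i) =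
      (∑ i, B j ω i) + (∑ i, R j ω i) + d := by
    intro j
    obtain ⟨c, hc⟩ := hSt j
    have e1 : (∑ i, B (j + 1) ω i) = (∑ i, B j ω i) + nb c := by
      unfold nb
      rw [← Finset.sum_add_distrib]
      exact Finset.sum_congr rfl fun i _ => (hc i).1
    have e2 : (∑ i, R (j + 1) ω i) = (∑ i, R j ω i) + nr c := by
      unfold nr
      rw [← Finset.sum_add_distrib]
      exact Finset.sum_congr rfl fun i _ => (hc i).2
    have := nb_add_nr c
    omega
  rcases hω with ⟨N, hN⟩ | ⟨N, hN⟩
  · have key : ∀ k, (∑ i, R (N + k) ω i) = (∑ i, R N ω i) ∧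
        (∑ i, B (N + k) ω i) = (∑ i, B N ω i) + d * k := by
      intro k
      induction k with
      | zero => simp
      | succ k ih =>
        have h1 := hN (N + k) (by omega)
        have h2 := htot (N + k)
        have e : N + (k + 1) = N + k + 1 := by omega
        rw [e]
        constructor
        · rw [h1]; exact ih.1
        · have := ih.1; have := ih.2
          rw [Nat.mul_succ]
          omega
    have h3 := (hG _ _ (hGj (N + (K * (∑ i, R N ω i) + K + 1)))).1
    rw [(key _).1, (key _).2] at h3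
    have : K * (∑ i, R N ω i) + K + 1 ≤ d * (K * (∑ i, R N ω i) + K + 1) :=
      Nat.le_mul_of_pos_left _ hd
    omega
  · have key : ∀ k, (∑ i, B (N + k) ω i) = (∑ i, B N ω i) ∧
        (∑ i, R (N + k) ω i) = (∑ i, R N ω i) + d * k := by
      intro k
      induction k with
      | zero => simp
      | succ k ih =>
        have h1 := hN (N + k) (by omega)
        have h2 := htot (N + k)
        have e : N + (k + 1) = N + k + 1 := by omega
        rw [e]
        constructor
        · rw [h1]; exact ih.1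
        · have := ih.1; have := ih.2
          rw [Nat.mul_succ]
          omega
    have h3 := (hG _ _ (hGj (N + (K * (∑ i, B N ω i) + K + 1)))).2
    rw [(key _).1, (key _).2] at h3
    have : K * (∑ i, B N ω i) + K + 1 ≤ d * (K * (∑ i, B N ω i) + K + 1) :=
      Nat.le_mul_of_pos_left _ hd
    omega

end

end Pool.Agent.H227R3.Urn
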