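import Pool.Agent.H227R3.Urn.Bound

open scoped BigOperators

set_option linter.unusedVariables false

namespace Pool.Agent.H227R3.Urn

lemma sum_four (p : ℝ) (f : ℕ → ℕ → ℝ) :
    ∑ c : Fin 4 → Bool, wt p c * f (nb c) (nr c) =
      (1 - p) ^ 4 * f 0 4 + 4 * p * (1 - p) ^ 3 * f 1 3 + 6 * p ^ 2 * (1 - p) ^ 2 * f 2 2 +
        4 * p ^ 3 * (1 - p) * f 3 1 + p ^ 4 * f 4 0 := by
  have e : (Finset.univ : Finset (Fin 4 → Bool)) =
      {![false, false, false, false], ![false, false, false, true], ![false, false, true, false],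
       ![false, false, true, true], ![false, true, false, false], ![false, true, false, true],
       ![false, true, true, false], ![false, true, true, true], ![true, false, false, false],
       ![true, false, false, true], ![true, false, true, false], ![true, false, true, true],
       ![true, true, false, false], ![true, true, false, true], ![true, true, true, false],
       ![true, true, true, true]} := by decide
  rw [e]
  repeat rw [Finset.sum_insert (by decide)]
  rw [Finset.sum_singleton]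
  simp only [wt, nb, nr, Fin.prod_univ_four, Fin.sum_univ_four, Matrix.cons_val_zero,
    Matrix.cons_val_one, Matrix.cons_val]
  norm_num
  ring

/-- exponent of the reinforcement sequence -/
def wexp (n : ℕ) : ℕ :=
  if n % 4 = 2 * (Nat.log 2 (n / 4) % 2) then 3 * Nat.log 2 (n / 4) + 5
  else if n % 4 = 2 * (Nat.log 2 (n / 4) % 2) + 1 then 2 * Nat.log 2 (n / 4) + 3
  else Nat.log 2 (n / 4)

/-- the reinforcement sequence -/
noncomputable def Wf (n : ℕ) : ℝ := 16 ^ wexp n

/-- `n` lies in zone `k` -/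
def Zone (k n : ℕ) : Prop := 2 ^ k ≤ n / 4 ∧ n / 4 < 2 * 2 ^ k

lemma log_zone {k n : ℕ} (h : Zone k n) : Nat.log 2 (n / 4) = k := by
  apply Nat.log_eq_of_pow_le_of_lt_pow h.1
  rw [pow_succ, mul_comm]
  exact h.2

lemma W_top {k n : ℕ} (h : Zone k n) (hr : n % 4 = 2 * (k % 2)) : Wf n = 16 ^ (3 * k + 5) := by
  unfold Wf wexp
  rw [log_zone h]
  simp [hr]

lemma W_mid {k n : ℕ} (h : Zone k n) (hr : n % 4 = 2 * (k % 2) + 1) : Wf n = 16 ^ (2 * k + 3) := by
  unfold Wf wexp
  rw [log_zone h]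
  simp [hr]

lemma W_low {k n : ℕ} (h : Zone k n) (hr : n % 4 ≠ 2 * (k % 2)) (hr' : n % 4 ≠ 2 * (k % 2) + 1) :
    Wf n = 16 ^ k := by
  unfold Wf wexp
  rw [log_zone h]
  simp [hr, hr']

lemma Wf_pos (n : ℕ) : 0 < Wf n := by unfold Wf; positivity

lemma Wf_strong : Strong Wf := by
  refine ⟨fun n => (Wf_pos n).le, fun n _ => Wf_pos n, ?_⟩
  have h1 : ∀ n : ℕ, ((n + 1 : ℕ) : ℝ) ^ 4 ≤ 4096 * Wf (n + 1) := by
    intro n
    have h2 : (n + 1) / 4 < 2 ^ (Nat.log 2 ((n + 1) / 4) + 1) := Nat.lt_pow_succ_log_self (by norm_num) _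
    set k := Nat.log 2 ((n + 1) / 4) with hk
    have h3 : n + 1 ≤ 8 * 2 ^ k := by
      rw [pow_succ] at h2
      omega
    have h4 : ((n + 1 : ℕ) : ℝ) ≤ 8 * 2 ^ k := by exact_mod_cast h3
    have h5 : (16 : ℝ) ^ k ≤ Wf (n + 1) := by
      unfold Wf
      apply pow_le_pow_right₀ (by norm_num)
      unfold wexp
      rw [← hk]
      split_ifs <;> omega
    calc ((n + 1 : ℕ) : ℝ) ^ 4 ≤ (8 * 2 ^ k) ^ 4 := by gcongr
      _ = 4096 * 16 ^ k := by
        rw [mul_pow, ← pow_mul, mul_comm k 4, pow_mul]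
        norm_num
      _ ≤ 4096 * Wf (n + 1) := by gcongr
  have h2 : Summable fun n : ℕ => 4096 * (1 / ((n + 1 : ℕ) : ℝ) ^ 4) := by
    apply Summable.mul_left
    have := (Real.summable_one_div_nat_pow (p := 4)).mpr (by norm_num)
    exact (summable_nat_add_iff 1).mpr this
  apply Summable.of_nonneg_of_le _ _ h2
  · intro n
    have := Wf_pos (n + 1)
    positivity
  · intro n
    have h3 := Wf_pos (n + 1)
    have h4 : (0 : ℝ) < ((n + 1 : ℕ) : ℝ) ^ 4 := by positivity
    rw [mul_one_div, div_le_div_iff₀ h3 h4]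
    linarith [h1 n]

/-- mover `x`, waiting token `y`, both in zone `k` in the special classes -/
def F1 (k x y : ℕ) : Prop :=
  Zone k x ∧ Zone k y ∧ x % 4 = 2 * (k % 2) ∧ y % 4 = 2 * (k % 2) + 1

/-- `x` has just entered zone `k+1`, `y` is still in zone `k` -/
def F2 (k x y : ℕ) : Prop :=
  x / 4 = 2 * 2 ^ k ∧ Zone k y ∧ x % 4 = 2 * (k % 2) ∧ y % 4 = 2 * (k % 2) + 1

/-- both tokens in zone `k` in the non-special classes -/
def SS (k x y : ℕ) : Prop :=
  Zone k x ∧ Zone k y ∧ x % 4 = 2 * ((k + 1) % 2) ∧ y % 4 = 2 * ((k + 1) % 2) + 1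

/-- the good set -/
def Good (b r : ℕ) : Prop :=
  ∃ k, 3 ≤ k ∧ ((SS k b r ∨ SS k r b) ∨ (F1 k b r ∨ F1 k r b) ∨ (F2 k b r ∨ F2 k r b))

lemma Good_symm {b r : ℕ} : Good b r ↔ Good r b := by
  unfold Good
  constructor
  · rintro ⟨k, hk, h⟩
    exact ⟨k, hk, by tauto⟩
  · rintro ⟨k, hk, h⟩
    exact ⟨k, hk, by tauto⟩

lemma Good_bound (b r : ℕ) (h : Good b r) : b ≤ 16 * r + 16 ∧ r ≤ 16 * b + 16 := by
  obtain ⟨k, hk, h⟩ := h
  unfold SS F1 F2 Zone at h
  generalize 2 ^ k = P at h
  omega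

/-- abbreviation for the failure probability of the chain -/
noncomputable def U (n b r : ℕ) : ℝ := u 4 Wf Good n b r

lemma U_nonneg (n b r : ℕ) : 0 ≤ U n b r := u_nonneg (fun n => (Wf_pos n).le) _ _ _ _
lemma U_le_one (n b r : ℕ) : U n b r ≤ 1 := u_le_one (fun n => (Wf_pos n).le) _ _ _ _

lemma U_zero {b r : ℕ} (h : Good b r) : U 0 b r = 0 := by
  unfold U u
  simp [h]

lemma U_succ {n b r : ℕ} (h : Good b r) : U (n + 1) b r =
    (1 - pBlack Wf b r) ^ 4 * U n b (r + 4) +
    4 * pBlack Wf b r * (1 - pBlack Wf b r) ^ 3 * U n (b + 1) (r + 3) +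
    6 * pBlack Wf b r ^ 2 * (1 - pBlack Wf b r) ^ 2 * U n (b + 2) (r + 2) +
    4 * pBlack Wf b r ^ 3 * (1 - pBlack Wf b r) * U n (b + 3) (r + 1) +
    pBlack Wf b r ^ 4 * U n (b + 4) r := by
  have := sum_four (pBlack Wf b r) (fun i j => u 4 Wf Good n (b + i) (r + j))
  unfold U
  conv_lhs => unfold u
  rw [if_pos h, this]
  simp

lemma U_bad {n b r : ℕ} (h : ¬ Good b r) : U n b r = 1 := by
  cases n <;> (unfold U u; simp [h])

lemma pBlack_symm (b r : ℕ) : pBlack Wf r b = 1 - pBlack Wf b r := by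
  unfold pBlack
  have := Wf_pos b
  have := Wf_pos r
  field_simp
  ring

lemma U_symm (n b r : ℕ) : U n b r = U n r b := by
  induction n generalizing b r with
  | zero =>
    by_cases h : Good b r
    · rw [U_zero h, U_zero (Good_symm.mp h)]
    · rw [U_bad h, U_bad (fun h' => h (Good_symm.mp h'))]
  | succ n ih =>
    by_cases h : Good b r
    · rw [U_succ h, U_succ (Good_symm.mp h), pBlack_symm b r]
      rw [ih b (r + 4), ih (b + 1) (r + 3), ih (b + 2) (r + 2), ih (b + 3) (r + 1), ih (b + 4) r]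
      ring
    · rw [U_bad h, U_bad (fun h' => h (Good_symm.mp h'))]

/-- one step with a dominating token -/
lemma U_mover {n x y : ℕ} (h : Good x y) (δ v : ℝ) (hδ : 4 * Wf y ≤ δ * Wf x)
    (hv : U n (x + 4) y ≤ v) : U (n + 1) x y ≤ v + δ := by
  set p := pBlack Wf x y with hp
  have hx := Wf_pos x
  have hy := Wf_pos y
  have hp0 : 0 ≤ p := pBlack_nonneg (fun n => (Wf_pos n).le) _ _
  have hp1 : p ≤ 1 := pBlack_le_one (fun n => (Wf_pos n).le) _ _
  have hq : 4 * (1 - p) ≤ δ := by
    have : 1 - p = Wf y / (Wf x + Wf y) := by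
      rw [hp]; unfold pBlack; field_simp; ring
    rw [this, ← mul_div_assoc, div_le_iff₀ (by positivity)]
    have hδ0 : 0 ≤ δ := by
      by_contra hneg
      push Not at hneg
      nlinarith
    nlinarith
  have h1 : 1 - p ^ 4 ≤ 4 * (1 - p) := by
    have : 1 - p ^ 4 = (1 - p) * (1 + p + p ^ 2 + p ^ 3) := by ring
    rw [this]
    have h2 : p ^ 2 ≤ 1 := pow_le_one₀ hp0 hp1
    have h3 : p ^ 3 ≤ 1 := pow_le_one₀ hp0 hp1
    nlinarith
  have hv0 : 0 ≤ v := (U_nonneg _ _ _).trans hv
  rw [U_succ h, ← hp]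
  have q0 : 0 ≤ 1 - p := by linarith
  have a0 := mul_le_mul_of_nonneg_left (U_le_one n x (y + 4)) (by positivity : 0 ≤ (1 - p) ^ 4)
  have a1 := mul_le_mul_of_nonneg_left (U_le_one n (x + 1) (y + 3)) (by positivity : 0 ≤ 4 * p * (1 - p) ^ 3)
  have a2 := mul_le_mul_of_nonneg_left (U_le_one n (x + 2) (y + 2)) (by positivity : 0 ≤ 6 * p ^ 2 * (1 - p) ^ 2)
  have a3 := mul_le_mul_of_nonneg_left (U_le_one n (x + 3) (y + 1)) (by positivity : 0 ≤ 4 * p ^ 3 * (1 - p))
  have a4 : p ^ 4 * U n (x + 4) y ≤ v := by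
    calc p ^ 4 * U n (x + 4) y ≤ 1 * v := by
          apply mul_le_mul (pow_le_one₀ hp0 hp1) hv (U_nonneg _ _ _) (by norm_num)
      _ = v := one_mul v
  have h5 : (1 - p) ^ 4 * 1 + 4 * p * (1 - p) ^ 3 * 1 + 6 * p ^ 2 * (1 - p) ^ 2 * 1 +
      4 * p ^ 3 * (1 - p) * 1 = 1 - p ^ 4 := by ring
  linarith

/-- error per step in the deterministic phases of stage `k` -/
noncomputable def δ (k : ℕ) : ℝ := 4 / 16 ^ (k + 2)

lemma δ_nonneg (k : ℕ) : 0 ≤ δ k := by unfold δ; positivity

/-- bound in phase F2 -/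
noncomputable def φ2 (k y : ℕ) : ℝ := (2 * 2 ^ k - (y / 4 : ℕ)) * δ k + (1 / 2) ^ (k + 1)
/-- bound in phase F1 -/
noncomputable def φ1 (k x : ℕ) : ℝ := (2 * 2 ^ k - (x / 4 : ℕ)) * δ k + 2 ^ k * δ k + (1 / 2) ^ (k + 1)
/-- bound in phase S -/
noncomputable def φS (k x y : ℕ) : ℝ :=
  (3 / 8) ^ (2 * 2 ^ k - 1 - max (x / 4) (y / 4)) + 2 * 2 ^ k * δ k + (1 / 2) ^ (k + 1)

lemma stage_ineq (K : ℕ) (hK : 3 ≤ K) :
    (3 / 8 : ℝ) ^ (2 ^ K - 1) + 2 * 2 ^ K * δ K + (1 / 2) ^ (K + 1) ≤ (1 / 2) ^ K := by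
  have h1 : K + 2 ≤ 2 ^ K - 1 := by
    have : K + 3 ≤ 2 ^ K := by
      induction K, hK using Nat.le_induction with
      | base => norm_num
      | succ n hn ih => rw [pow_succ]; omega
    omega
  have h2 : (3 / 8 : ℝ) ^ (2 ^ K - 1) ≤ (1 / 2) ^ (K + 2) := by
    calc (3 / 8 : ℝ) ^ (2 ^ K - 1) ≤ (1 / 2) ^ (2 ^ K - 1) := by
          apply pow_le_pow_left₀ (by norm_num) (by norm_num)
      _ ≤ (1 / 2) ^ (K + 2) := pow_le_pow_of_le_one (by norm_num) (by norm_num) h1
  have h3 : 2 * 2 ^ K * δ K ≤ (1 / 2) ^ (K + 2) := by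
    unfold δ
    rw [one_div, inv_pow, mul_div_assoc', div_le_iff₀ (by positivity), pow_add, pow_add, mul_inv]
    have h16 : (16 : ℝ) ^ K = 2 ^ K * 2 ^ K * 4 ^ K := by
      rw [← mul_pow, ← mul_pow]; norm_num
    rw [h16]
    have h4 : (1 : ℝ) ≤ 4 ^ K := one_le_pow₀ (by norm_num)
    have h5 : (0 : ℝ) < 2 ^ K := by positivity
    field_simp
    nlinarith
  have h4 : (1 / 2 : ℝ) ^ K = 4 * (1 / 2) ^ (K + 2) := by rw [pow_add]; ring
  have h5 : (1 / 2 : ℝ) ^ (K + 1) = 2 * (1 / 2) ^ (K + 2) := by rw [pow_add, pow_add]; ring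
  rw [h4, h5]
  linarith

lemma main (n : ℕ) : ∀ k, 3 ≤ k → ∀ x y,
    (F1 k x y → U n x y ≤ φ1 k x) ∧ (F2 k x y → U n x y ≤ φ2 k y) ∧
    (SS k x y → U n x y ≤ φS k x y) := by
  induction n with
  | zero =>
    intro k hk x y
    refine ⟨fun h => ?_, fun h => ?_, fun h => ?_⟩
    · rw [U_zero ⟨k, hk, by tauto⟩]
      unfold φ1
      have h1 : ((x / 4 : ℕ) : ℝ) ≤ 2 * 2 ^ k := by exact_mod_cast h.1.2.le
      have := δ_nonneg k
      have : 0 ≤ (2 * 2 ^ k - ((x / 4 : ℕ) : ℝ)) * δ k := mul_nonneg (by linarith) this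
      positivity
    · rw [U_zero ⟨k, hk, by tauto⟩]
      unfold φ2
      have h1 : ((y / 4 : ℕ) : ℝ) ≤ 2 * 2 ^ k := by exact_mod_cast h.2.1.2.le
      have := δ_nonneg k
      have : 0 ≤ (2 * 2 ^ k - ((y / 4 : ℕ) : ℝ)) * δ k := mul_nonneg (by linarith) this
      positivity
    · rw [U_zero ⟨k, hk, by tauto⟩]
      unfold φS
      have := δ_nonneg k
      positivity
  | succ n ih =>
    intro k hk x y
    refine ⟨fun h => ?_, fun h => ?_, fun h => ?_⟩
    · -- F1
      have hG : Good x y := ⟨k, hk, by tauto⟩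
      obtain ⟨hx, hy, hxr, hyr⟩ := h
      have hδ : 4 * Wf y ≤ δ k * Wf x := by
        rw [W_top hx hxr, W_mid hy hyr]
        unfold δ
        have e : (16 : ℝ) ^ (3 * k + 5) = 16 ^ (k + 2) * 16 ^ (2 * k + 3) := by
          rw [← pow_add]; congr 1; ring
        rw [e]
        field_simp
        exact le_rfl
      have hx4 : (x + 4) / 4 = x / 4 + 1 := by omega
      by_cases hlt : x / 4 + 1 < 2 * 2 ^ k
      · have hF : F1 k (x + 4) y := by
          refine ⟨⟨?_, ?_⟩, hy, by omega, hyr⟩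
          · have := hx.1; omega
          · omega
        have h1 := (ih k hk (x + 4) y).1 hF
        have h2 := U_mover hG (δ k) _ hδ h1
        refine h2.trans (le_of_eq ?_)
        unfold φ1
        rw [hx4]
        push_cast
        ring
      · have hF : F2 k (x + 4) y := by
          refine ⟨?_, hy, by omega, hyr⟩
          have := hx.2; omega
        have h1 := (ih k hk (x + 4) y).2.1 hF
        have h2 := U_mover hG (δ k) _ hδ h1
        refine h2.trans ?_
        unfold φ1 φ2
        have h3 : ((x / 4 : ℕ) : ℝ) + 1 ≤ 2 * 2 ^ k := by exact_mod_cast hx.2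
        have h4 : (2 : ℝ) ^ k ≤ ((y / 4 : ℕ) : ℝ) := by exact_mod_cast hy.1
        have h5 := δ_nonneg k
        nlinarith
    · -- F2
      have hG : Good x y := ⟨k, hk, by tauto⟩
      obtain ⟨hx, hy, hxr, hyr⟩ := h
      have hxz : Zone (k + 1) x := by
        refine ⟨?_, ?_⟩
        · rw [pow_succ]; omega
        · rw [pow_succ]
          have : 0 < 2 ^ k := by positivity
          omega
      have hδ : 4 * Wf x ≤ δ k * Wf y := by
        rw [W_low hxz (by omega) (by omega), W_mid hy hyr]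
        unfold δ
        have e : (16 : ℝ) ^ (2 * k + 3) = 16 ^ (k + 2) * 16 ^ (k + 1) := by
          rw [← pow_add]; congr 1; ring
        rw [e]
        field_simp
        exact le_rfl
      have hy4 : (y + 4) / 4 = y / 4 + 1 := by omega
      rw [U_symm]
      by_cases hlt : y / 4 + 1 < 2 * 2 ^ k
      · have hF : F2 k x (y + 4) := by
          refine ⟨hx, ⟨?_, ?_⟩, hxr, by omega⟩
          · have := hy.1; omega
          · omega
        have h1 := (ih k hk x (y + 4)).2.1 hF
        rw [U_symm] at h1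
        have h2 := U_mover (Good_symm.mp hG) (δ k) _ hδ h1
        refine h2.trans (le_of_eq ?_)
        unfold φ2
        rw [hy4]
        push_cast
        ring
      · have hyeq : y / 4 + 1 = 2 * 2 ^ k := by have := hy.2; omega
        have hF : SS (k + 1) x (y + 4) := by
          refine ⟨hxz, ⟨?_, ?_⟩, by omega, by omega⟩
          · rw [pow_succ]; omega
          · rw [pow_succ]
            have : 0 < 2 ^ k := by positivity
            omega
        have h1 := (ih (k + 1) (by omega) x (y + 4)).2.2 hF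
        rw [U_symm] at h1
        have h2 := U_mover (Good_symm.mp hG) (δ k) _ hδ h1
        refine h2.trans ?_
        have h3 : φS (k + 1) x (y + 4) ≤ (1 / 2) ^ (k + 1) := by
          unfold φS
          have e1 : max (x / 4) ((y + 4) / 4) = 2 ^ (k + 1) := by
            rw [hy4, hx, hyeq, max_self, pow_succ, mul_comm]
          have e2 : 2 * 2 ^ (k + 1) - 1 - 2 ^ (k + 1) = 2 ^ (k + 1) - 1 := by
            have : 0 < 2 ^ (k + 1) := by positivity
            omega
          rw [e1, e2]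
          exact stage_ineq (k + 1) (by omega)
        unfold φ2
        have h4 : ((y / 4 : ℕ) : ℝ) + 1 = 2 * 2 ^ k := by exact_mod_cast hyeq
        have h5 := δ_nonneg k
        have : (2 * 2 ^ k - ((y / 4 : ℕ) : ℝ)) * δ k = δ k := by
          rw [← h4]; ring
        rw [this]
        linarith
    · -- S
      have hG : Good x y := ⟨k, hk, by tauto⟩
      obtain ⟨hx, hy, hxr, hyr⟩ := h
      by_cases hN : max (x / 4) (y / 4) + 1 < 2 * 2 ^ k
      · have hWx : Wf x = 16 ^ k := W_low hx (by omega) (by omega)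
        have hWy : Wf y = 16 ^ k := W_low hy (by omega) (by omega)
        have hp : pBlack Wf x y = 1 / 2 := by
          unfold pBlack
          rw [hWx, hWy]
          have : (16 : ℝ) ^ k ≠ 0 := by positivity
          field_simp
          norm_num
        have hmx : x / 4 ≤ max (x / 4) (y / 4) := le_max_left _ _
        have hmy : y / 4 ≤ max (x / 4) (y / 4) := le_max_right _ _
        have hx1 := hx.1
        have hy1 := hy.1
        set M := max (x / 4) (y / 4) with hM
        -- common bound in non-special case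
        set A : ℝ := (3 / 8) ^ (2 * 2 ^ k - 1 - M - 1) with hA
        set C : ℝ := 2 * 2 ^ k * δ k + (1 / 2) ^ (k + 1) with hC
        have hA0 : 0 ≤ A := by positivity
        have hφ : φS k x y = 3 / 8 * A + C := by
          unfold φS
          rw [← hM, hC, hA]
          have : 2 * 2 ^ k - 1 - M = (2 * 2 ^ k - 1 - M - 1) + 1 := by omega
          rw [this, pow_succ]
          simp only [Nat.add_sub_cancel]
          ring
        have hS : ∀ a b, SS k a b → a / 4 ≤ M + 1 → b / 4 ≤ M + 1 → U n a b ≤ A + C := by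
          intro a b hab ha hb
          refine ((ih k hk a b).2.2 hab).trans ?_
          unfold φS
          have : (3 / 8 : ℝ) ^ (2 * 2 ^ k - 1 - max (a / 4) (b / 4)) ≤ A := by
            rw [hA]
            apply pow_le_pow_of_le_one (by norm_num) (by norm_num)
            have : max (a / 4) (b / 4) ≤ M + 1 := max_le ha hb
            omega
          rw [hC]
          linarith
        have hF : ∀ a b, F1 k a b → U n a b ≤ C := by
          intro a b hab
          refine ((ih k hk a b).1 hab).trans ?_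
          unfold φ1
          rw [hC]
          have h4 : (2 : ℝ) ^ k ≤ ((a / 4 : ℕ) : ℝ) := by exact_mod_cast hab.1.1
          have h5 := δ_nonneg k
          nlinarith
        have u0 : U n x (y + 4) ≤ A + C := by
          apply hS
          · refine ⟨hx, ⟨by omega, by omega⟩, hxr, by omega⟩
          · omega
          · omega
        have u1 : U n (x + 1) (y + 3) ≤ A + C := by
          rw [U_symm]
          apply hS
          · refine ⟨⟨by omega, by omega⟩, ⟨by omega, by omega⟩, by omega, by omega⟩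
          · omega
          · omega
        have u2 : U n (x + 2) (y + 2) ≤ C := by
          apply hF
          refine ⟨⟨by omega, by omega⟩, ⟨by omega, by omega⟩, by omega, by omega⟩
        have u3 : U n (x + 3) (y + 1) ≤ C := by
          rw [U_symm]
          apply hF
          refine ⟨⟨by omega, by omega⟩, ⟨by omega, by omega⟩, by omega, by omega⟩
        have u4 : U n (x + 4) y ≤ A + C := by
          apply hS
          · refine ⟨⟨by omega, by omega⟩, hy, by omega, hyr⟩
          · omega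
          · omega
        rw [U_succ hG, hp, hφ]
        norm_num
        linarith
      · refine (U_le_one _ _ _).trans ?_
        unfold φS
        have hx2 := hx.2
        have hy2 := hy.2
        have e : 2 * 2 ^ k - 1 - max (x / 4) (y / 4) = 0 := by omega
        rw [e]
        have := δ_nonneg k
        have : 0 ≤ 2 * 2 ^ k * δ k + (1 / 2 : ℝ) ^ (k + 1) := by positivity
        simp only [pow_zero]
        linarith

/-- Starting from the first block of zone `k` the failure probability is at most `2 ^ (-k)`. -/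
lemma start (k : ℕ) (hk : 3 ≤ k) (n : ℕ) :
    U n (4 * 2 ^ k + 2 * ((k + 1) % 2)) (4 * 2 ^ k + 2 * ((k + 1) % 2) + 1) ≤ (1 / 2) ^ k := by
  have h1 : (4 * 2 ^ k + 2 * ((k + 1) % 2)) / 4 = 2 ^ k := by omega
  have h2 : (4 * 2 ^ k + 2 * ((k + 1) % 2) + 1) / 4 = 2 ^ k := by omega
  have hpos : 0 < 2 ^ k := by positivity
  have hS : SS k (4 * 2 ^ k + 2 * ((k + 1) % 2)) (4 * 2 ^ k + 2 * ((k + 1) % 2) + 1) := by
    refine ⟨⟨by omega, by omega⟩, ⟨by omega, by omega⟩, by omega, by omega⟩
  refine ((main n k hk _ _).2.2 hS).trans ?_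
  unfold φS
  rw [h1, h2, max_self]
  have e2 : 2 * 2 ^ k - 1 - 2 ^ k = 2 ^ k - 1 := by omega
  rw [e2]
  exact stage_ineq k hk

end Pool.Agent.H227R3.Urn
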