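import Mathlib

/-!
# Interacting urns with full interaction (`p = 1`)

Definitions used in the hand-in `MP_0b3b8e_pr.MonopolyFails`.
-/

open MeasureTheory
open scoped ENNReal BigOperators

namespace Pool.Agent.H227R3.Urn

/-- `W` is a strong reinforcement sequence: `W n ≥ 0` for all `n`, `W n > 0` for `n ≥ 1`, and
`∑_{n ≥ 1} 1 / W n < ∞`. -/
structure Strong (W : ℕ → ℝ) : Prop where
  nonneg : ∀ n, 0 ≤ W n
  pos : ∀ n, 1 ≤ n → 0 < W n
  summable : Summable fun n : ℕ => 1 / W (n + 1)

/-- The probability that a given urn receives a black ball when all urns together contain `b`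
black and `r` red balls. -/
noncomputable def pBlack (W : ℕ → ℝ) (b r : ℕ) : ℝ := W b / (W b + W r)

/-- `(B, R)` is (a version of) the system of `d` interacting urns with full interaction, with
reinforcement sequence `W` and initial composition `(B₀, R₀)`: `B n ω i` and `R n ω i` are the
numbers of black and red balls in urn `i` at time `n`; given the whole history up to time `n`,
independently for each urn `i`, urn `i` receives one black ball with probability
`W (B*) / (W (B*) + W (R*))` and one red ball otherwise (`c i = true` means: urn `i` receives a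
black ball). -/
structure IsUrnProcess {d : ℕ} (W : ℕ → ℝ) (B₀ R₀ : Fin d → ℕ) {Ω : Type*} [MeasurableSpace Ω]
    (μ : Measure Ω) (B R : ℕ → Ω → Fin d → ℕ) : Prop where
  measurable_B : ∀ n, Measurable (B n)
  measurable_R : ∀ n, Measurable (R n)
  init : ∀ᵐ ω ∂μ, B 0 ω = B₀ ∧ R 0 ω = R₀
  step : ∀ (n : ℕ) (b r : ℕ → Fin d → ℕ) (c : Fin d → Bool),
    μ {ω | (∀ m ≤ n, B m ω = b m ∧ R m ω = r m) ∧
        ∀ i, B (n + 1) ω i = b n i + (if c i then 1 else 0) ∧
          R (n + 1) ω i = r n i + (if c i then 0 else 1)} =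
      μ {ω | ∀ m ≤ n, B m ω = b m ∧ R m ω = r m} *
        ∏ i, ENNReal.ofReal (if c i then pBlack W (∑ j, b n j) (∑ j, r n j)
          else 1 - pBlack W (∑ j, b n j) (∑ j, r n j))

/-- Monopoly: from some time on only balls of one colour are added. -/
def Monopoly {d : ℕ} {Ω : Type*} (B R : ℕ → Ω → Fin d → ℕ) : Set Ω :=
  {ω | (∃ N, ∀ n ≥ N, ∑ i, R (n + 1) ω i = ∑ i, R n ω i) ∨
    (∃ N, ∀ n ≥ N, ∑ i, B (n + 1) ω i = ∑ i, B n ω i)}

end Pool.Agent.H227R3.Urn
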