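import Pool.Agent.H227R3.Urn.Bound

open MeasureTheory
open scoped ENNReal BigOperators

namespace Pool.Agent.H227R3.Urn

/-- uniform law on the unit interval -/
noncomputable def unif : Measure ℝ := volume.restrict (Set.Ico 0 1)

instance : IsProbabilityMeasure unif := ⟨by
  unfold unif
  rw [Measure.restrict_apply MeasurableSet.univ, Set.univ_inter, Real.volume_Ico]
  simp⟩

lemma unif_lt {p : ℝ} (h0 : 0 ≤ p) (h1 : p ≤ 1) : unif (Set.Iio p) = ENNReal.ofReal p := by
  unfold unif
  rw [Measure.restrict_apply measurableSet_Iio]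
  have : Set.Iio p ∩ Set.Ico 0 1 = Set.Ico 0 p := by
    ext x
    simp only [Set.mem_inter_iff, Set.mem_Iio, Set.mem_Ico]
    constructor
    · rintro ⟨h, h', h''⟩; exact ⟨h', h⟩
    · rintro ⟨h, h'⟩; exact ⟨h', h, by linarith⟩
  rw [this, Real.volume_Ico, sub_zero]

lemma unif_iff {p : ℝ} (h0 : 0 ≤ p) (h1 : p ≤ 1) (c : Bool) :
    unif {x | x < p ↔ c = true} = ENNReal.ofReal (if c then p else 1 - p) := by
  cases c
  · have : {x | x < p ↔ false = true} = (Set.Iio p)ᶜ := by
      ext x; simp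
    rw [this, measure_compl measurableSet_Iio (measure_ne_top _ _), unif_lt h0 h1, measure_univ]
    simp only [Bool.false_eq_true, if_false]
    rw [ENNReal.ofReal_sub _ h0, ENNReal.ofReal_one]
  · have : {x | x < p ↔ true = true} = Set.Iio p := by
      ext x; simp
    rw [this, unif_lt h0 h1]
    simp

variable {d : ℕ} (W : ℕ → ℝ) (B₀ R₀ : Fin d → ℕ)

/-- the canonical process driven by uniform variables -/
noncomputable def X : ℕ → (ℕ × Fin d → ℝ) → (Fin d → ℕ) × (Fin d → ℕ)
  | 0, _ => (B₀, R₀)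
  | n + 1, ω =>
    (fun i => (X n ω).1 i +
        (if ω (n, i) < pBlack W (∑ j, (X n ω).1 j) (∑ j, (X n ω).2 j) then 1 else 0),
      fun i => (X n ω).2 i +
        (if ω (n, i) < pBlack W (∑ j, (X n ω).1 j) (∑ j, (X n ω).2 j) then 0 else 1))

lemma measurable_X (n : ℕ) : Measurable (X W B₀ R₀ n) := by
  induction n with
  | zero => exact measurable_const
  | succ n ih =>
    have hp : Measurable fun ω => pBlack W (∑ j, (X W B₀ R₀ n ω).1 j) (∑ j, (X W B₀ R₀ n ω).2 j) := by
      have : Measurable fun (x : (Fin d → ℕ) × (Fin d → ℕ)) =>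
        pBlack W (∑ j, x.1 j) (∑ j, x.2 j) := measurable_of_countable _
      exact this.comp ih
    have hs : ∀ i : Fin d, MeasurableSet {ω : ℕ × Fin d → ℝ |
        ω (n, i) < pBlack W (∑ j, (X W B₀ R₀ n ω).1 j) (∑ j, (X W B₀ R₀ n ω).2 j)} := by
      intro i
      exact measurableSet_lt (measurable_pi_apply _) hp
    apply Measurable.prodMk
    · apply measurable_pi_lambda
      intro i
      apply Measurable.add
      · exact (measurable_pi_apply i).comp (measurable_fst.comp ih)
      · exact Measurable.ite (hs i) measurable_const measurable_const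
    · apply measurable_pi_lambda
      intro i
      apply Measurable.add
      · exact (measurable_pi_apply i).comp (measurable_snd.comp ih)
      · exact Measurable.ite (hs i) measurable_const measurable_const

/-- black balls of the canonical process -/
noncomputable def Bc (n : ℕ) (ω : ℕ × Fin d → ℝ) : Fin d → ℕ := (X W B₀ R₀ n ω).1
/-- red balls of the canonical process -/
noncomputable def Rc (n : ℕ) (ω : ℕ × Fin d → ℝ) : Fin d → ℕ := (X W B₀ R₀ n ω).2

/-- the history is a possible one, with draw patterns `c` -/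
def Valid (n : ℕ) (b r : ℕ → Fin d → ℕ) (c : ℕ → Fin d → Bool) : Prop :=
  b 0 = B₀ ∧ r 0 = R₀ ∧ ∀ m < n, ∀ i, b (m + 1) i = b m i + (if c m i then 1 else 0) ∧
    r (m + 1) i = r m i + (if c m i then 0 else 1)

lemma mem_stp_iff (n : ℕ) (c : Fin d → Bool) (ω : ℕ × Fin d → ℝ) :
    ω ∈ Stp (Bc W B₀ R₀) (Rc W B₀ R₀) n c ↔
      ∀ i, ω (n, i) < pBlack W (∑ j, Bc W B₀ R₀ n ω j) (∑ j, Rc W B₀ R₀ n ω j) ↔ c i = true := by
  unfold Stp
  simp only [Set.mem_ofPred_eq]
  apply forall_congr'
  intro i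
  have e1 : Bc W B₀ R₀ (n + 1) ω i = Bc W B₀ R₀ n ω i +
      (if ω (n, i) < pBlack W (∑ j, Bc W B₀ R₀ n ω j) (∑ j, Rc W B₀ R₀ n ω j) then 1 else 0) := rfl
  have e2 : Rc W B₀ R₀ (n + 1) ω i = Rc W B₀ R₀ n ω i +
      (if ω (n, i) < pBlack W (∑ j, Bc W B₀ R₀ n ω j) (∑ j, Rc W B₀ R₀ n ω j) then 0 else 1) := rfl
  rw [e1, e2]
  by_cases h : ω (n, i) < pBlack W (∑ j, Bc W B₀ R₀ n ω j) (∑ j, Rc W B₀ R₀ n ω j) <;>
    cases hc : c i <;> simp [h, hc]

lemma hist_box (n : ℕ) (b r : ℕ → Fin d → ℕ) (c : ℕ → Fin d → Bool)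
    (hv : Valid B₀ R₀ n b r c) :
    Hist (Bc W B₀ R₀) (Rc W B₀ R₀) n b r =
      Set.pi ↑(Finset.range n ×ˢ (Finset.univ : Finset (Fin d)))
        (fun q : ℕ × Fin d => {x : ℝ | x < pBlack W (∑ j, b q.1 j) (∑ j, r q.1 j) ↔ c q.1 q.2 = true}) := by
  induction n with
  | zero =>
    ext ω
    simp only [Hist, Set.mem_ofPred_eq, Finset.range_zero, Finset.empty_product, Finset.coe_empty,
      Set.empty_pi, Set.mem_univ, iff_true]
    intro j hj
    have : j = 0 := by omega
    subst this
    exact ⟨hv.1.symm, hv.2.1.symm⟩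
  | succ n ih =>
    have hv' : Valid B₀ R₀ n b r c := ⟨hv.1, hv.2.1, fun m hm => hv.2.2 m (by omega)⟩
    have hstep := hv.2.2 n (by omega)
    have e : Hist (Bc W B₀ R₀) (Rc W B₀ R₀) (n + 1) b r =
        Hist (Bc W B₀ R₀) (Rc W B₀ R₀) n b r ∩ Stp (Bc W B₀ R₀) (Rc W B₀ R₀) n (c n) := by
      ext ω
      simp only [Hist, Stp, Set.mem_inter_iff, Set.mem_ofPred_eq]
      constructor
      · intro h
        refine ⟨fun j hj => h j (by omega), ?_⟩
        intro i
        rw [(h (n + 1) le_rfl).1, (h (n + 1) le_rfl).2, (h n (by omega)).1, (h n (by omega)).2]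
        exact hstep i
      · rintro ⟨h1, h2⟩ j hj
        rcases Nat.lt_or_ge n j with hlt | hge
        · have : j = n + 1 := by omega
          subst this
          constructor
          · funext i
            rw [(h2 i).1, (h1 n le_rfl).1, (hstep i).1]
          · funext i
            rw [(h2 i).2, (h1 n le_rfl).2, (hstep i).2]
        · exact h1 j hge
    rw [e]
    ext ω
    rw [Set.mem_inter_iff, mem_stp_iff]
    constructor
    · rintro ⟨h1, h2⟩
      have h1' := h1
      rw [ih hv'] at h1'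
      rw [(h1 n le_rfl).1, (h1 n le_rfl).2] at h2
      intro q hq
      rw [Finset.mem_coe, Finset.mem_product, Finset.mem_range] at hq
      rcases Nat.lt_or_ge q.1 n with hlt | hge
      · exact h1' q (by rw [Finset.mem_coe, Finset.mem_product, Finset.mem_range]; exact ⟨hlt, hq.2⟩)
      · have : q.1 = n := by omega
        obtain ⟨q1, q2⟩ := q
        simp only at this
        subst this
        exact h2 q2
    · intro h
      have h1 : ω ∈ Hist (Bc W B₀ R₀) (Rc W B₀ R₀) n b r := by
        rw [ih hv']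
        intro q hq
        rw [Finset.mem_coe, Finset.mem_product, Finset.mem_range] at hq
        exact h q (by rw [Finset.mem_coe, Finset.mem_product, Finset.mem_range]; exact ⟨by omega, hq.2⟩)
      refine ⟨h1, ?_⟩
      rw [(h1 n le_rfl).1, (h1 n le_rfl).2]
      intro i
      exact h (n, i) (by rw [Finset.mem_coe, Finset.mem_product, Finset.mem_range]; exact ⟨by simp, by simp⟩)

lemma hist_empty (n : ℕ) (b r : ℕ → Fin d → ℕ) (hv : ¬ ∃ c, Valid B₀ R₀ n b r c) :
    Hist (Bc W B₀ R₀) (Rc W B₀ R₀) n b r = ∅ := by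
  rw [Set.eq_empty_iff_forall_notMem]
  intro ω h
  apply hv
  classical
  refine ⟨fun m i => decide (ω (m, i) < pBlack W (∑ j, Bc W B₀ R₀ m ω j) (∑ j, Rc W B₀ R₀ m ω j)),
    (h 0 (by omega)).1.symm, (h 0 (by omega)).2.symm, ?_⟩
  intro m hm i
  rw [← (h (m + 1) (by omega)).1, ← (h (m + 1) (by omega)).2, ← (h m (by omega)).1,
    ← (h m (by omega)).2]
  have := (mem_stp_iff W B₀ R₀ m (fun i => decide (ω (m, i) <
    pBlack W (∑ j, Bc W B₀ R₀ m ω j) (∑ j, Rc W B₀ R₀ m ω j))) ω).mpr (fun i => by simp)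
  exact this i

/-- law of the driving variables -/
noncomputable def Pm (d : ℕ) : Measure (ℕ × Fin d → ℝ) := Measure.infinitePi (fun _ => unif)

instance : IsProbabilityMeasure (Pm d) := by unfold Pm; infer_instance

lemma measure_hist (hW : ∀ n, 0 ≤ W n) (n : ℕ) (b r : ℕ → Fin d → ℕ) (c : ℕ → Fin d → Bool)
    (hv : Valid B₀ R₀ n b r c) :
    Pm d (Hist (Bc W B₀ R₀) (Rc W B₀ R₀) n b r) =
      ∏ m ∈ Finset.range n, ∏ i, ENNReal.ofReal (if c m i then pBlack W (∑ j, b m j) (∑ j, r m j)
          else 1 - pBlack W (∑ j, b m j) (∑ j, r m j)) := by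
  rw [hist_box W B₀ R₀ n b r c hv]
  unfold Pm
  rw [Measure.infinitePi_pi]
  · rw [Finset.prod_product]
    apply Finset.prod_congr rfl
    intro m _
    apply Finset.prod_congr rfl
    intro i _
    exact unif_iff (pBlack_nonneg hW _ _) (pBlack_le_one hW _ _) _
  · intro q _
    have : {x : ℝ | x < pBlack W (∑ j, b q.1 j) (∑ j, r q.1 j) ↔ c q.1 q.2 = true} =
      if c q.1 q.2 then Set.Iio (pBlack W (∑ j, b q.1 j) (∑ j, r q.1 j))
        else (Set.Iio (pBlack W (∑ j, b q.1 j) (∑ j, r q.1 j)))ᶜ := by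
      cases hc : c q.1 q.2 <;> (ext x; simp)
    rw [this]
    split_ifs
    · exact measurableSet_Iio
    · exact measurableSet_Iio.compl

theorem exists_process (hW : ∀ n, 0 ≤ W n) :
    IsUrnProcess W B₀ R₀ (Pm d) (Bc W B₀ R₀) (Rc W B₀ R₀) where
  measurable_B n := measurable_fst.comp (measurable_X W B₀ R₀ n)
  measurable_R n := measurable_snd.comp (measurable_X W B₀ R₀ n)
  init := by
    filter_upwards with ω
    exact ⟨rfl, rfl⟩
  step n b r c := by
    have e1 : {ω | (∀ m ≤ n, Bc W B₀ R₀ m ω = b m ∧ Rc W B₀ R₀ m ω = r m) ∧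
        ∀ i, Bc W B₀ R₀ (n + 1) ω i = b n i + (if c i then 1 else 0) ∧
          Rc W B₀ R₀ (n + 1) ω i = r n i + (if c i then 0 else 1)} =
        Hist (Bc W B₀ R₀) (Rc W B₀ R₀) n b r ∩ Stp (Bc W B₀ R₀) (Rc W B₀ R₀) n c := by
      ext ω
      simp only [Hist, Stp, Set.mem_inter_iff, Set.mem_ofPred_eq]
      constructor
      · rintro ⟨h1, h2⟩
        refine ⟨h1, ?_⟩
        rw [(h1 n le_rfl).1, (h1 n le_rfl).2]
        exact h2
      · rintro ⟨h1, h2⟩
        refine ⟨h1, ?_⟩
        rw [(h1 n le_rfl).1, (h1 n le_rfl).2] at h2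
        exact h2
    have e2 : {ω | ∀ m ≤ n, Bc W B₀ R₀ m ω = b m ∧ Rc W B₀ R₀ m ω = r m} =
        Hist (Bc W B₀ R₀) (Rc W B₀ R₀) n b r := rfl
    rw [e1, e2]
    by_cases hv : ∃ c, Valid B₀ R₀ n b r c
    · obtain ⟨c', hv⟩ := hv
      rw [← hist_succ]
      have hv' : Valid B₀ R₀ (n + 1) (ext n b (fun i => if c i then 1 else 0))
          (ext n r (fun i => if c i then 0 else 1)) (Function.update c' n c) := by
        refine ⟨?_, ?_, ?_⟩
        · rw [ext_le (by omega)]; exact hv.1
        · rw [ext_le (by omega)]; exact hv.2.1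
        · intro m hm i
          rcases Nat.lt_or_ge m n with hlt | hge
          · rw [ext_le (by omega), ext_le (by omega), ext_le (by omega), ext_le (by omega),
              Function.update_of_ne (by omega)]
            exact hv.2.2 m hlt i
          · have : m = n := by omega
            subst this
            rw [ext_succ, ext_succ, ext_le le_rfl, ext_le le_rfl, Function.update_self]
            exact ⟨rfl, rfl⟩
      rw [measure_hist W B₀ R₀ hW (n + 1) _ _ _ hv', measure_hist W B₀ R₀ hW n _ _ _ hv,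
        Finset.prod_range_succ]
      congr 1
      · apply Finset.prod_congr rfl
        intro m hm
        rw [Finset.mem_range] at hm
        rw [ext_le (by omega), ext_le (by omega), Function.update_of_ne (by omega)]
      · rw [ext_le le_rfl, ext_le le_rfl, Function.update_self]
    · rw [hist_empty W B₀ R₀ n b r hv]
      simp

end Pool.Agent.H227R3.Urn
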